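import Pool.Agent.R497.NC.Defs

/-!
# NC-PME: the mean ergodic theorem along polynomials, from van der Corput's lemma
-/

set_option autoImplicit false

namespace Pool.Agent.R497.NC

open MeasureTheory Filter Finset
open scoped InnerProductSpace

namespace PMEAux

open Polynomial in
theorem shift_lt {Q : Polynomial ℤ} (hQ : 0 < Q.natDegree) (k : ℕ) :
    (taylor (k : ℤ) Q - Q).natDegree < Q.natDegree := by
  have hne : Q ≠ 0 := by
    rintro rfl
    simp at hQ
  have hne' : taylor (k : ℤ) Q ≠ 0 := by
    intro h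
    have h1 := natDegree_taylor Q (k : ℤ)
    rw [h] at h1
    simp at h1
    omega
  have hdeg : (taylor (k : ℤ) Q).degree = Q.degree := by
    rw [degree_eq_natDegree hne, degree_eq_natDegree hne', natDegree_taylor]
  have hlc : (taylor (k : ℤ) Q).leadingCoeff = Q.leadingCoeff := by
    simp
  by_cases h0 : taylor (k : ℤ) Q - Q = 0
  · rw [h0]
    simpa using hQ
  · have h1 := degree_sub_lt hdeg hne' hlc
    rw [hdeg] at h1
    exact natDegree_lt_natDegree h0 h1

open Polynomial in
theorem shift_pos {Q : Polynomial ℤ} (hQ : 2 ≤ Q.natDegree) {k : ℕ} (hk : 0 < k) :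
    0 < (taylor (k : ℤ) Q - Q).natDegree := by
  by_contra h0
  have h1 : (taylor (k : ℤ) Q - Q).natDegree = 0 := by omega
  obtain ⟨r, hr⟩ := natDegree_eq_zero.1 h1
  have h2 : ∀ z : ℤ, Q.eval (z + k) = Q.eval z + r := by
    intro z
    have h3 := congrArg (eval z) hr
    rw [eval_C, eval_sub, taylor_eval] at h3
    linarith
  have h4 : ∀ n : ℕ, Q.eval ((k : ℤ) * n) = Q.eval 0 + n * r := by
    intro n
    induction n with
    | zero => simp
    | succ n ih =>
      have h5 := h2 ((k : ℤ) * n)
      rw [ih] at h5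
      rw [show ((k : ℤ) * ((n + 1 : ℕ) : ℤ)) = (k : ℤ) * n + k by push_cast; ring, h5]
      push_cast
      ring
  have h6 : Q.comp (C (k : ℤ) * X) = C r * X + C (Q.eval 0) := by
    apply eq_of_infinite_eval_eq
    refine Set.Infinite.mono ?_ (Set.infinite_range_of_injective (Nat.cast_injective (R := ℤ)))
    rintro _ ⟨n, rfl⟩
    simp only [Set.mem_setOf_eq, eval_comp, eval_mul, eval_C, eval_X, eval_add]
    rw [h4]
    ring
  have h7 := congrArg natDegree h6
  rw [natDegree_comp, natDegree_C_mul_X _ (by exact_mod_cast hk.ne')] at h7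
  have h8 : (C r * X + C (Q.eval 0) : Polynomial ℤ).natDegree ≤ 1 := natDegree_linear_le
  omega

theorem norm_U {H : Type} [NormedAddCommGroup H] [InnerProductSpace ℝ H] (U : H ≃ₗᵢ[ℝ] H) (z : ℤ)
    (w : H) : ‖(U ^ z) w‖ = ‖w‖ := LinearIsometryEquiv.norm_map _ _

theorem pow_add_apply {H : Type} [NormedAddCommGroup H] [InnerProductSpace ℝ H]
    (U : H ≃ₗᵢ[ℝ] H) (a b : ℤ) (w : H) : (U ^ (a + b)) w = (U ^ a) ((U ^ b) w) := by
  rw [zpow_add]
  rfl

/-- the linear case -/
theorem lin {H : Type} [NormedAddCommGroup H] [InnerProductSpace ℝ H] (U : H ≃ₗᵢ[ℝ] H) (v : H)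
    (hv : ∀ r : ℕ, 0 < r →
      Tendsto (fun N : ℕ => (N : ℝ)⁻¹ • ∑ n ∈ range N, (U ^ (r * n)) v) atTop (nhds 0))
    (c b : ℤ) (hc : c ≠ 0) :
    Tendsto (fun N : ℕ => (N : ℝ)⁻¹ • ∑ n ∈ range N, (U ^ (c * (n : ℤ) + b)) v) atTop
      (nhds 0) := by
  have h1 := hv c.natAbs (Int.natAbs_pos.2 hc)
  rw [tendsto_zero_iff_norm_tendsto_zero] at h1 ⊢
  refine h1.congr fun N => ?_
  rw [norm_smul, norm_smul]
  congr 1
  rcases lt_or_gt_of_ne hc with h | h
  · -- c negative
    have e : ∑ n ∈ range N, (U ^ (c * (n : ℤ) + b)) v =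
        (U ^ (c * ((N : ℤ) - 1) + b)) (∑ n ∈ range N, (U ^ (c.natAbs * n)) v) := by
      rw [map_sum, ← Finset.sum_range_reflect (fun n => (U ^ (c * ((N : ℤ) - 1) + b))
        ((U ^ (c.natAbs * n)) v))]
      refine Finset.sum_congr rfl fun n hn => ?_
      have hn' : n < N := Finset.mem_range.1 hn
      rw [← zpow_natCast U (c.natAbs * (N - 1 - n)), ← pow_add_apply]
      congr 2
      have hca : ((c.natAbs : ℕ) : ℤ) = -c := by omega
      have e2 : ((N - 1 - n : ℕ) : ℤ) = (N : ℤ) - 1 - n := by omega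
      rw [Nat.cast_mul, hca, e2]
      ring
    rw [e, norm_U]
  · have e : ∑ n ∈ range N, (U ^ (c * (n : ℤ) + b)) v =
        (U ^ b) (∑ n ∈ range N, (U ^ (c.natAbs * n)) v) := by
      rw [map_sum]
      refine Finset.sum_congr rfl fun n hn => ?_
      rw [← zpow_natCast U (c.natAbs * n), ← pow_add_apply]
      congr 2
      have hca : ((c.natAbs : ℕ) : ℤ) = c := by omega
      rw [Nat.cast_mul, hca]
      ring
    rw [e, norm_U]

end PMEAux

open PMEAux

theorem tPME (h : S_VDC) : S_PME := by
  intro H _ _ U v hv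
  have key : ∀ d : ℕ, ∀ Q : Polynomial ℤ, Q.natDegree = d → 0 < d →
      Tendsto (fun N : ℕ => (N : ℝ)⁻¹ • ∑ n ∈ range N, (U ^ (Q.eval (n : ℤ))) v) atTop
        (nhds 0) := by
    intro d
    induction d using Nat.strong_induction_on with
    | _ d ih =>
      intro Q hQ hd
      by_cases hd1 : d = 1
      · have h1 : Q.natDegree ≤ 1 := by omega
        have h2 := Polynomial.eq_X_add_C_of_natDegree_le_one h1
        have hc : Q.coeff 1 ≠ 0 := by
          intro h0
          have h3 : Q.natDegree = 1 := by omega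
          have h4 : Q.leadingCoeff = 0 := by
            rw [Polynomial.leadingCoeff, h3]
            exact h0
          rw [Polynomial.leadingCoeff_eq_zero] at h4
          rw [h4] at h3
          simp at h3
        have h3 := lin U v hv (Q.coeff 1) (Q.coeff 0) hc
        refine h3.congr fun N => ?_
        congr 1
        refine Finset.sum_congr rfl fun n _ => ?_
        congr 2
        conv_rhs => rw [h2]
        simp
      · refine h H (fun n => (U ^ (Q.eval (n : ℤ))) v) ‖v‖ (fun n => (norm_U U _ v).le) ?_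
        intro k hk
        have hlt := shift_lt (Q := Q) (by omega) k
        have hpos := shift_pos (Q := Q) (by omega) hk
        have h3 := ih (Polynomial.taylor (k : ℤ) Q - Q).natDegree (by omega)
          (Polynomial.taylor (k : ℤ) Q - Q) rfl hpos
        have h4 : Tendsto (fun N : ℕ => ⟪v, (N : ℝ)⁻¹ • ∑ n ∈ range N,
            (U ^ ((Polynomial.taylor (k : ℤ) Q - Q).eval (n : ℤ))) v⟫_ℝ) atTop (nhds 0) := by
          have h5 : Continuous fun w : H => ⟪v, w⟫_ℝ := continuous_const.inner continuous_id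
          have h6 := (h5.tendsto 0).comp h3
          rw [inner_zero_right] at h6
          exact h6
        refine h4.congr fun N => ?_
        rw [inner_smul_right, inner_sum]
        congr 1
        refine Finset.sum_congr rfl fun n _ => ?_
        have e1 : Q.eval ((n + k : ℕ) : ℤ) = Q.eval (n : ℤ) +
            (Polynomial.taylor (k : ℤ) Q - Q).eval (n : ℤ) := by
          rw [Polynomial.eval_sub, Polynomial.taylor_eval]
          push_cast
          ring
        rw [e1, pow_add_apply, LinearIsometryEquiv.inner_map_map]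
  intro Q hQ
  exact key _ Q rfl hQ

end Pool.Agent.R497.NC
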